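import Pool.Agent.helper90.FL.Spec

set_option autoImplicit false

namespace Pool.Agent.helper90.FL

open Finset Polynomial
open scoped Classical

theorem CN0 : CN0_stmt := by
  intro V E _ _ s t q B
  unfold N
  rw [Nat.card_eq_one_iff_unique]
  refine ⟨⟨?_⟩, ⟨⟨fun _ => 0, ?_⟩⟩⟩
  · rintro ⟨f, hf⟩ ⟨g, hg⟩
    apply Subtype.ext
    funext e
    have h1 : f e = 0 := by
      by_contra h
      exact absurd ((hf.1 e).mp h) (notMem_empty e)
    have h2 : g e = 0 := by
      by_contra h
      exact absurd ((hg.1 e).mp h) (notMem_empty e)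
    show f e = g e
    rw [h1, h2]
  · refine ⟨fun e => ⟨fun h => absurd rfl h, fun h => absurd h (notMem_empty e)⟩, ?_⟩
    intro S _
    simp

end Pool.Agent.helper90.FL
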